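import Pool.Agent.BKG.Fin

/-!
MP_a6e4a6_nt. Exponents instead of multisets, and their uniqueness.
-/

set_option autoImplicit false

namespace Pool.Agent.BKG

open PowerSeries

/-- the product over a multiset of numbers `≤ N` with multiplicities as exponents -/
theorem P_eq (N : ℕ) (D : Multiset ℕ) (hD : ∀ d ∈ D, d ≤ N) :
    P N D = ∏ d ∈ Finset.range (N + 1), (1 - C (Polynomial.X ^ d) * X ^ N) ^ D.count d := by
  rw [P, Finset.prod_multiset_map_count]
  refine Finset.prod_subset ?_ ?_
  · intro d hd
    rw [Multiset.mem_toFinset] at hd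
    rw [Finset.mem_range]
    have := hD d hd
    omega
  · intro d _ hd
    rw [Multiset.mem_toFinset] at hd
    rw [Multiset.count_eq_zero_of_notMem hd, pow_zero]

end Pool.Agent.BKG
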