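import Mathlib

/-!
MP_a6e4a6_nt. Elimination: a power series `1 - V` over `ℤ[t]` in `s`, where `V` has nonnegative
coefficients and no constant term, is an infinite product of `1 - s^N t^d`.
-/

set_option autoImplicit false

namespace Pool.Agent.BKG

open PowerSeries

/-- coefficient of `s^N t^d` -/
noncomputable def cf (V : PowerSeries (Polynomial ℤ)) (N d : ℕ) : ℤ := (coeff N V).coeff d

/-- the monomial `s^n t^k` -/
noncomputable def mono (n k : ℕ) : PowerSeries (Polynomial ℤ) := C (Polynomial.X ^ k) * X ^ n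

theorem cf_add (f g : PowerSeries (Polynomial ℤ)) (N d : ℕ) : cf (f + g) N d = cf f N d + cf g N d := by
  rw [cf, cf, cf, map_add, Polynomial.coeff_add]

theorem cf_sub (f g : PowerSeries (Polynomial ℤ)) (N d : ℕ) : cf (f - g) N d = cf f N d - cf g N d := by
  rw [cf, cf, cf, map_sub, Polynomial.coeff_sub]

theorem cf_mul (f g : PowerSeries (Polynomial ℤ)) (N d : ℕ) :
    cf (f * g) N d = ∑ p ∈ Finset.HasAntidiagonal.antidiagonal N, ∑ q ∈ Finset.HasAntidiagonal.antidiagonal d,
      cf f p.1 q.1 * cf g p.2 q.2 := by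
  rw [cf, coeff_mul, Polynomial.finsetSum_coeff]
  refine Finset.sum_congr rfl fun p _ => ?_
  rw [Polynomial.coeff_mul]
  rfl

theorem cf_mono (n k N d : ℕ) : cf (mono n k) N d = if N = n ∧ d = k then 1 else 0 := by
  rw [cf, mono, coeff_C_mul, coeff_X_pow]
  by_cases h : N = n
  · subst h
    rw [if_pos rfl, mul_one, Polynomial.coeff_X_pow]
    simp
  · rw [if_neg h, mul_zero, if_neg fun h2 => h h2.1]
    simp

theorem cf_mono_mul (n k : ℕ) (f : PowerSeries (Polynomial ℤ)) (N d : ℕ) :
    cf (mono n k * f) N d = if n ≤ N ∧ k ≤ d then cf f (N - n) (d - k) else 0 := by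
  rw [cf, mono, mul_assoc, coeff_C_mul, coeff_X_pow_mul']
  by_cases h : n ≤ N
  · rw [if_pos h, Polynomial.coeff_X_pow_mul']
    by_cases h2 : k ≤ d
    · rw [if_pos h2, if_pos ⟨h, h2⟩]
      rfl
    · rw [if_neg h2, if_neg fun h3 => h2 h3.2]
  · rw [if_neg h, if_neg fun h3 => h h3.1, mul_zero, Polynomial.coeff_zero]

theorem mono_mul (n k m l : ℕ) : mono n k * mono m l = mono (n + m) (k + l) := by
  rw [mono, mono, mono, pow_add, pow_add, map_mul]
  ring

theorem mono_zero : mono 0 0 = 1 := by
  rw [mono, pow_zero, pow_zero, map_one, mul_one]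

/-- all coefficients are nonnegative -/
def NN (f : PowerSeries (Polynomial ℤ)) : Prop := ∀ N d, 0 ≤ cf f N d

theorem NN.add {f g : PowerSeries (Polynomial ℤ)} (hf : NN f) (hg : NN g) : NN (f + g) := by
  intro N d
  rw [cf_add]
  exact add_nonneg (hf N d) (hg N d)

theorem NN.mul {f g : PowerSeries (Polynomial ℤ)} (hf : NN f) (hg : NN g) : NN (f * g) := by
  intro N d
  rw [cf_mul]
  exact Finset.sum_nonneg fun p _ => Finset.sum_nonneg fun q _ => mul_nonneg (hf _ _) (hg _ _)

theorem NN.mono (n k : ℕ) : NN (mono n k) := by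
  intro N d
  rw [cf_mono]
  split_ifs <;> norm_num

theorem NN.one : NN 1 := by
  rw [← mono_zero]
  exact NN.mono 0 0

theorem NN.zero : NN 0 := by
  intro N d
  rw [cf, map_zero, Polynomial.coeff_zero]

theorem NN.of_eq {f g : PowerSeries (Polynomial ℤ)} (hg : NN g) (h : f = g) : NN f := h ▸ hg

/-- the support is contained in `Q` -/
def SI (Q : ℕ → ℕ → Prop) (f : PowerSeries (Polynomial ℤ)) : Prop := ∀ N d, cf f N d ≠ 0 → Q N d

theorem SI.add {Q : ℕ → ℕ → Prop} {f g : PowerSeries (Polynomial ℤ)} (hf : SI Q f) (hg : SI Q g) :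
    SI Q (f + g) := by
  intro N d h
  rw [cf_add] at h
  by_cases h1 : cf f N d = 0
  · rw [h1, zero_add] at h
    exact hg N d h
  · exact hf N d h1

theorem SI.sub {Q : ℕ → ℕ → Prop} {f g : PowerSeries (Polynomial ℤ)} (hf : SI Q f) (hg : SI Q g) :
    SI Q (f - g) := by
  intro N d h
  rw [cf_sub] at h
  by_cases h1 : cf f N d = 0
  · rw [h1, zero_sub, neg_ne_zero] at h
    exact hg N d h
  · exact hf N d h1

theorem SI.mul {P Q R : ℕ → ℕ → Prop} (hPQ : ∀ a b c d, P a b → Q c d → R (a + c) (b + d))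
    {f g : PowerSeries (Polynomial ℤ)} (hf : SI P f) (hg : SI Q g) : SI R (f * g) := by
  intro N d h
  rw [cf_mul] at h
  obtain ⟨p, hp, h1⟩ := Finset.exists_ne_zero_of_sum_ne_zero h
  obtain ⟨q, hq, h2⟩ := Finset.exists_ne_zero_of_sum_ne_zero h1
  rw [Finset.HasAntidiagonal.mem_antidiagonal] at hp hq
  rw [← hp, ← hq]
  exact hPQ _ _ _ _ (hf _ _ (left_ne_zero_of_mul h2)) (hg _ _ (right_ne_zero_of_mul h2))

theorem SI.mono {Q : ℕ → ℕ → Prop} {n k : ℕ} (h : Q n k) : SI Q (mono n k) := by
  intro N d h1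
  rw [cf_mono] at h1
  by_cases h2 : N = n ∧ d = k
  · rw [h2.1, h2.2]
    exact h
  · rw [if_neg h2] at h1
    exact absurd rfl h1

/-- `1 / (1 - s^n t^k)` -/
noncomputable def K (n k : ℕ) : PowerSeries (Polynomial ℤ) :=
  PowerSeries.mk fun N => if n ∣ N then Polynomial.X ^ (k * (N / n)) else 0

theorem cf_K (n k N d : ℕ) : cf (K n k) N d = if n ∣ N ∧ d = k * (N / n) then 1 else 0 := by
  rw [cf, K, coeff_mk]
  by_cases h : n ∣ N
  · rw [if_pos h, Polynomial.coeff_X_pow]
    simp [h]
  · rw [if_neg h, if_neg fun h2 => h h2.1, Polynomial.coeff_zero]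

theorem NN.K (n k : ℕ) : NN (K n k) := by
  intro N d
  rw [cf_K]
  split_ifs <;> norm_num

theorem K_mul (n k : ℕ) (hn : 1 ≤ n) : (1 - mono n k) * K n k = 1 := by
  have h : (1 - mono n k) * K n k = K n k - C (Polynomial.X ^ k) * (X ^ n * K n k) := by
    rw [mono]
    ring
  rw [h]
  ext1 N
  rw [map_sub, coeff_C_mul, coeff_X_pow_mul', K, coeff_mk, coeff_one]
  by_cases h : n ≤ N
  · rw [if_pos h, coeff_mk]
    have h0 : N ≠ 0 := by omega
    rw [if_neg h0]
    by_cases h2 : n ∣ N
    · have h3 : n ∣ N - n := Nat.dvd_sub h2 (dvd_refl n)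
      rw [if_pos h2, if_pos h3, ← pow_add]
      obtain ⟨j, rfl⟩ := h2
      have hj : 1 ≤ j := by
        rcases Nat.eq_zero_or_pos j with h4 | h4
        · subst h4
          simp at h0
        · exact h4
      have e1 : n * j / n = j := Nat.mul_div_cancel_left j (by omega)
      have e2 : (n * j - n) / n = j - 1 := by
        have e3 : n * j - n = n * (j - 1) := by
          rw [Nat.mul_sub, mul_one]
        rw [e3]
        exact Nat.mul_div_cancel_left _ (by omega)
      rw [e1, e2]
      have e4 : k + k * (j - 1) = k * j := by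
        obtain ⟨i, rfl⟩ : ∃ i, j = i + 1 := ⟨j - 1, by omega⟩
        rw [Nat.add_sub_cancel]
        ring
      rw [e4, sub_self]
    · have h3 : ¬ n ∣ N - n := by
        intro h4
        apply h2
        have h5 : N = (N - n) + n := by omega
        rw [h5]
        exact dvd_add h4 (dvd_refl n)
      rw [if_neg h2, if_neg h3, mul_zero, sub_zero]
  · rw [if_neg h, mul_zero, sub_zero]
    by_cases h0 : N = 0
    · subst h0
      simp
    · rw [if_neg h0, if_neg]
      intro h2
      exact h (Nat.le_of_dvd (Nat.pos_of_ne_zero h0) h2)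

/-- one elimination step -/
theorem elim {Q : ℕ → ℕ → Prop} (hQ : ∀ a b c d, Q a b → Q c d → Q (a + c) (b + d))
    {V : PowerSeries (Polynomial ℤ)} {n k : ℕ} (hn : 1 ≤ n) (hV : NN V) (hX : X ^ n ∣ V) (hS : SI Q V)
    (hc : 1 ≤ cf V n k) :
    ∃ V' : PowerSeries (Polynomial ℤ), NN V' ∧ X ^ n ∣ V' ∧ SI Q V' ∧ 1 - V = (1 - mono n k) * (1 - V') ∧
      X ^ (n + 1) ∣ V' - (V - mono n k) ∧ NN (V' - (V - mono n k)) := by
  have hK := K_mul n k hn
  have hQm : Q n k := hS n k (by omega)
  have h1 : NN (V - mono n k) := by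
    intro N d
    rw [cf_sub, cf_mono]
    split_ifs with h
    · rw [h.1, h.2]
      omega
    · have := hV N d
      omega
  have hVe : (V - mono n k) * K n k - (V - mono n k) = mono n k * ((V - mono n k) * K n k) := by
    linear_combination (V - mono n k) * hK
  have hXm : X ^ n ∣ V - mono n k := dvd_sub hX ⟨C (Polynomial.X ^ k), by rw [mono, mul_comm]⟩
  have hN : NN ((V - mono n k) * K n k) := h1.mul (NN.K n k)
  have hX' : X ^ n ∣ (V - mono n k) * K n k := hXm.mul_right _
  refine ⟨(V - mono n k) * K n k, hN, hX', ?_, ?_, ?_, ?_⟩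
  · intro N
    induction N using Nat.strong_induction_on with
    | _ N ih =>
      intro d hd
      have h2 : cf ((V - mono n k) * K n k) N d =
          cf (V - mono n k) N d + cf (mono n k * ((V - mono n k) * K n k)) N d := by
        rw [← cf_add, ← hVe]
        congr 1
        ring
      by_cases h3 : cf (V - mono n k) N d = 0
      · rw [h2, h3, zero_add, cf_mono_mul] at hd
        by_cases h4 : n ≤ N ∧ k ≤ d
        · rw [if_pos h4] at hd
          have h5 := hQ _ _ _ _ hQm (ih (N - n) (by omega) (d - k) hd)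
          have e1 : n + (N - n) = N := by omega
          have e2 : k + (d - k) = d := by omega
          rw [e1, e2] at h5
          exact h5
        · rw [if_neg h4] at hd
          exact absurd rfl hd
      · exact (hS.sub (SI.mono hQm)) N d h3
  · linear_combination (V - mono n k) * hK
  · rw [hVe]
    obtain ⟨Z, hZ⟩ := hX'
    have h3 : X ^ (n + 1) ∣ (X : PowerSeries (Polynomial ℤ)) ^ n * X ^ n := by
      rw [← pow_add]
      exact pow_dvd_pow X (by omega)
    rw [hZ]
    refine h3.trans ⟨C (Polynomial.X ^ k) * Z, by rw [mono]; ring⟩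
  · rw [hVe]
    exact (NN.mono n k).mul hN

/-- all elimination steps of weight `n` -/
theorem weight {Q : ℕ → ℕ → Prop} (hQ : ∀ a b c d, Q a b → Q c d → Q (a + c) (b + d)) {n : ℕ}
    (hn : 1 ≤ n) (M : ℕ) : ∀ V : PowerSeries (Polynomial ℤ), NN V → X ^ n ∣ V → SI Q V →
      (coeff n V).eval 1 = (M : ℤ) →
      ∃ (D : Multiset ℕ) (V' : PowerSeries (Polynomial ℤ)), NN V' ∧ X ^ (n + 1) ∣ V' ∧ SI Q V' ∧
        1 - V = (D.map fun k => 1 - mono n k).prod * (1 - V') ∧ (∀ k, (D.count k : ℤ) = cf V n k) ∧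
        ∀ N d, n < N → cf V N d ≤ cf V' N d := by
  induction M with
  | zero =>
    intro V hV hX hS hM
    have h0 : ∀ k, cf V n k = 0 := by
      intro k
      by_contra hk
      have h1 : 0 < cf V n k := lt_of_le_of_ne (hV n k) (Ne.symm hk)
      rw [Polynomial.eval_eq_sum, Polynomial.sum_def] at hM
      have h2 : (0 : ℤ) < ∑ i ∈ (coeff n V).support, (coeff n V).coeff i * 1 ^ i := by
        refine Finset.sum_pos' (fun i _ => ?_) ⟨k, ?_, ?_⟩
        · rw [one_pow, mul_one]
          exact hV n i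
        · rw [Polynomial.mem_support_iff]
          exact hk
        · rw [one_pow, mul_one]
          exact h1
      rw [hM] at h2
      simp at h2
    refine ⟨0, V, hV, ?_, hS, ?_, ?_, ?_⟩
    · rw [X_pow_dvd_iff]
      intro m hm
      rcases Nat.lt_succ_iff_lt_or_eq.1 hm with h | h
      · exact X_pow_dvd_iff.1 hX m h
      · subst h
        ext k
        rw [Polynomial.coeff_zero]
        exact h0 k
    · simp
    · intro k
      rw [h0 k]
      simp
    · intro N d _
      exact le_refl _
  | succ M ih =>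
    intro V hV hX hS hM
    obtain ⟨k, hk⟩ : ∃ k, 1 ≤ cf V n k := by
      by_contra hcon
      push Not at hcon
      have h0 : coeff n V = 0 := by
        ext k
        rw [Polynomial.coeff_zero]
        have h1 := hV n k
        have h2 := hcon k
        have h3 : cf V n k = 0 := by omega
        exact h3
      rw [h0, Polynomial.eval_zero] at hM
      push_cast at hM
      omega
    obtain ⟨V', a1, a2, a3, a4, a5, a6⟩ := elim hQ hn hV hX hS hk
    have hco : coeff n V' = coeff n V - Polynomial.X ^ k := by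
      have h1 := X_pow_dvd_iff.1 a5 n (by omega)
      rw [map_sub, map_sub, mono, coeff_C_mul, coeff_X_pow, if_pos rfl, mul_one] at h1
      linear_combination h1
    obtain ⟨D, W, b1, b2, b3, b4, b5, b6⟩ := ih V' a1 a2 a3 (by
      rw [hco, Polynomial.eval_sub, hM, Polynomial.eval_pow, Polynomial.eval_X, one_pow]
      push_cast
      ring)
    refine ⟨k ::ₘ D, W, b1, b2, b3, ?_, ?_, ?_⟩
    · rw [Multiset.map_cons, Multiset.prod_cons, mul_assoc, ← b4]
      exact a4
    · intro j
      rw [Multiset.count_cons]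
      have h1 : cf V' n j = cf V n j - if j = k then 1 else 0 := by
        rw [cf, hco, Polynomial.coeff_sub, Polynomial.coeff_X_pow]
        rfl
      push_cast
      rw [b5 j, h1]
      ring
    · intro N d hN
      refine le_trans ?_ (b6 N d hN)
      have h1 := a6 N d
      rw [cf_sub, cf_sub, cf_mono, if_neg (by omega)] at h1
      omega

end Pool.Agent.BKG
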