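import Pool.Agent.BKG.Main

/-!
MP_a6e4a6_nt. The exponents of the infinite product.
-/

set_option autoImplicit false

namespace Pool.Agent.BKG

open PowerSeries

theorem X_dvd_V : X ∣ V := by
  refine ⟨(X ^ 4 + X ^ 8 + X ^ 14) * K 12 0 * C Polynomial.X ^ 1 * K 3 1, ?_⟩
  rw [V]
  ring

theorem X_dvd_U : X ∣ U * C Polynomial.X ^ 1 := by
  refine ⟨(X ^ 6 + X ^ 10 + X ^ 12) * K 12 0 * C Polynomial.X ^ 1, ?_⟩
  rw [U]
  ring

theorem X_dvd_T : X ∣ T * C Polynomial.X ^ 1 := by
  refine ⟨(X ^ 2 + X ^ 4 + X ^ 8) * K 12 0 * C Polynomial.X ^ 1, ?_⟩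
  rw [T]
  ring

theorem X_dvd_Y : X ∣ Y := by
  refine ⟨(X ^ 9 + X ^ 15 + X ^ 15) * (K 12 0 * K 12 0) + X ^ 13 * K 12 0, ?_⟩
  rw [Y]
  ring

/-- the exponents -/
theorem exists_exponents {O S : PowerSeries (Polynomial ℤ)} (hO : (1 - X ^ 2) * O = X ^ 3)
    (hS : (1 - X ^ 4) * (1 - X ^ 6) * S = X ^ 12) :
    ∃ D : ℕ → Multiset ℕ, Fac (1 - O * C Polynomial.X + S * C Polynomial.X ^ 2 *
      (1 - C Polynomial.X ^ 2)) D ∧
      ∀ N d, d ∈ D N ↔ 1 ≤ d ∧ 3 * d ≤ N ∧ N % 2 = d % 2 ∧ ¬ (N = 6 ∧ d = 2) ∧ ¬ (N = 9 ∧ d = 3) := by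
  have hOe := O_eq hO
  have hTU := TU_eq hS
  obtain ⟨GT, gT1, gT2, gT3⟩ := exists_inv Q0_add (by unfold Q0; omega)
    (NN.T.mul (NN.t 1)) X_dvd_T SI.T
  have hQU0 : SI Q0 (U * C Polynomial.X ^ 1) := SI.U.imp fun a b h => by
    unfold Q at h
    unfold Q0
    omega
  obtain ⟨GU, gU1, gU2, gU3⟩ := exists_inv Q0_add (by unfold Q0; omega)
    (NN.U.mul (NN.t 1)) X_dvd_U hQU0
  have nY : NN (Y * C Polynomial.X ^ 2) := NN.Y.mul (NN.t 2)
  have nS : NN (S * C Polynomial.X ^ 4) := (NN.S hS).mul (NN.t 4)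
  have nW : NN ((Y * C Polynomial.X ^ 2 + S * C Polynomial.X ^ 4) * GT * GU) :=
    ((nY.add nS).mul gT1).mul gU1
  have sW : SI Q ((Y * C Polynomial.X ^ 2 + S * C Polynomial.X ^ 4) * GT * GU) :=
    SI.mul QQ0_add (SI.mul QQ0_add (SI.Y.add (SI.S hS)) gT2) gU2
  have xS : X ∣ S := ⟨X ^ 11 * K 4 0 * K 6 0, by rw [S_eq hS]; ring⟩
  have xW : X ∣ (Y * C Polynomial.X ^ 2 + S * C Polynomial.X ^ 4) * GT * GU :=
    ((dvd_add (X_dvd_Y.mul_right _) (xS.mul_right _)).mul_right _).mul_right _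
  obtain ⟨D1, f1, l1, m1⟩ := exists_fac Q_add NN.V X_dvd_V SI.V
  obtain ⟨D2, f2, l2, m2⟩ := exists_fac Q_add (NN.U.mul (NN.t 1)) X_dvd_U SI.U
  obtain ⟨D3, f3, l3, m3⟩ := exists_fac Q_add nW xW sW
  have hfac := (((Fac.mono 3 1 (by norm_num)).mul f1).mul f2).mul f3
  have hB : (1 - mono 3 1) * (1 - V) * (1 - U * C Polynomial.X ^ 1) *
      (1 - (Y * C Polynomial.X ^ 2 + S * C Polynomial.X ^ 4) * GT * GU) =
      1 - O * C Polynomial.X + S * C Polynomial.X ^ 2 * (1 - C Polynomial.X ^ 2) := by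
    rw [VT]
    linear_combination (-(Y * C Polynomial.X ^ 2 + S * C Polynomial.X ^ 4) *
      (1 - U * C Polynomial.X ^ 1) * GU) * gT3 +
      (-(Y * C Polynomial.X ^ 2 + S * C Polynomial.X ^ 4)) * gU3 +
      C Polynomial.X * hOe + C Polynomial.X ^ 2 * hTU
  rw [hB] at hfac
  refine ⟨_, hfac, ?_⟩
  intro N d
  -- monomials of the two inverses
  have hT31 : Has (T * C Polynomial.X ^ 1) 3 1 := by
    rw [T]
    exact (((((Has.xpow 3).add_right (NN.xpow 5)).add_right (NN.xpow 9)).mul (Has.K12 0)).mul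
      (Has.t 1)).cast (by omega) (by omega)
  have hGT : ∀ j, Has GT (3 * j) j := by
    intro j
    induction j with
    | zero =>
      have h : NN (T * C Polynomial.X ^ 1 * GT) := (NN.T.mul (NN.t 1)).mul gT1
      refine NN.of_eq h ?_
      rw [mul_zero, mono_zero]
      linear_combination gT3
    | succ j ih =>
      have h : NN (T * C Polynomial.X ^ 1 * GT - mono (3 + 3 * j) (1 + j)) := hT31.mul ih
      refine NN.of_eq (NN.one.add h) ?_
      have e1 : 3 * (j + 1) = 3 + 3 * j := by ring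
      have e2 : j + 1 = 1 + j := by ring
      rw [e1, e2]
      linear_combination gT3
  have hGU : Has GU 0 0 := by
    have h : NN (U * C Polynomial.X ^ 1 * GU) := (NN.U.mul (NN.t 1)).mul gU1
    refine NN.of_eq h ?_
    rw [mono_zero]
    linear_combination gU3
  have hW1 : ∀ a i j, (a = 10 ∨ a = 14 ∨ a = 16) →
      Has ((Y * C Polynomial.X ^ 2 + S * C Polynomial.X ^ 4) * GT * GU) (a + 12 * i + 3 * j) (2 + j) := by
    intro a i j ha
    exact (((((Has.Y a i ha).mul (Has.t 2)).add_right nS).mul (hGT j)).mul hGU).cast (by omega)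
      (by omega)
  have hW2 : ∀ j, Has ((Y * C Polynomial.X ^ 2 + S * C Polynomial.X ^ 4) * GT * GU)
      (12 + 3 * j) (4 + j) := by
    intro j
    have hSS : Has S 12 0 := by
      rw [S_eq hS]
      exact (((Has.xpow 12).mul (Has.K 4 0 0 (by norm_num))).mul
        (Has.K 6 0 0 (by norm_num))).cast (by omega) (by omega)
    exact ((((hSS.mul (Has.t 4)).add_left nY).mul (hGT j)).mul hGU).cast (by omega) (by omega)
  have k1 : ∀ N d, 1 ≤ N → Has V N d → d ∈ D1 N := by
    intro N d hN h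
    have h1 := l1 N d hN
    have h2 := h.pos
    exact Multiset.count_pos.1 (by omega)
  have k2 : ∀ N d, 1 ≤ N → Has (U * C Polynomial.X ^ 1) N d → d ∈ D2 N := by
    intro N d hN h
    have h1 := l2 N d hN
    have h2 := h.pos
    exact Multiset.count_pos.1 (by omega)
  have k3 : ∀ N d, 1 ≤ N →
      Has ((Y * C Polynomial.X ^ 2 + S * C Polynomial.X ^ 4) * GT * GU) N d → d ∈ D3 N := by
    intro N d hN h
    have h1 := l3 N d hN
    have h2 := h.pos
    exact Multiset.count_pos.1 (by omega)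
  simp only [Multiset.mem_add]
  constructor
  · rintro (((h | h) | h) | h)
    · split_ifs at h with h1
      · rw [Multiset.mem_singleton] at h
        omega
      · exact absurd h (Multiset.notMem_zero d)
    · have := m1 N d h
      unfold Q at this
      omega
    · have := m2 N d h
      unfold Q at this
      omega
    · have := m3 N d h
      unfold Q at this
      omega
  · rintro ⟨h1, h2, h3, h4, h5⟩
    by_cases h6 : N = 3
    · left; left; left
      rw [if_pos h6, Multiset.mem_singleton]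
      omega
    by_cases h7 : N = 3 * d
    · right
      have hd : 4 ≤ d := by omega
      exact k3 N d (by omega) ((hW2 (d - 4)).cast (by omega) (by omega))
    have hr : 3 * d + 2 ≤ N := by omega
    obtain ⟨r, rfl⟩ : ∃ r, N = 3 * d + 2 + 2 * r := ⟨(N - 3 * d - 2) / 2, by omega⟩
    obtain ⟨i, c, rfl, hc⟩ : ∃ i c, r = 6 * i + c ∧ c < 6 :=
      ⟨r / 6, r % 6, by omega, by omega⟩
    have hcases : c = 0 ∨ c = 1 ∨ c = 2 ∨ c = 3 ∨ c = 4 ∨ c = 5 := by omega
    rcases hcases with rfl | rfl | rfl | rfl | rfl | rfl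
    · left; left; right
      exact k1 _ _ (by omega) ((Has.V 5 i (d - 1) (by omega)).cast (by omega) (by omega))
    · by_cases h8 : d = 1
      · left; right
        exact k2 _ _ (by omega) ((Has.U 7 i (by omega)).cast (by omega) (by omega))
      · right
        exact k3 _ _ (by omega) ((hW1 10 i (d - 2) (by omega)).cast (by omega) (by omega))
    · left; left; right
      exact k1 _ _ (by omega) ((Has.V 9 i (d - 1) (by omega)).cast (by omega) (by omega))
    · by_cases h8 : d = 1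
      · left; right
        exact k2 _ _ (by omega) ((Has.U 11 i (by omega)).cast (by omega) (by omega))
      · right
        exact k3 _ _ (by omega) ((hW1 14 i (d - 2) (by omega)).cast (by omega) (by omega))
    · by_cases h8 : d = 1
      · left; right
        exact k2 _ _ (by omega) ((Has.U 13 i (by omega)).cast (by omega) (by omega))
      · right
        exact k3 _ _ (by omega) ((hW1 16 i (d - 2) (by omega)).cast (by omega) (by omega))
    · left; left; right
      exact k1 _ _ (by omega) ((Has.V 15 i (d - 1) (by omega)).cast (by omega) (by omega))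

end Pool.Agent.BKG
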