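import Pool.Agent.BKG.Prod

/-!
MP_a6e4a6_nt. The factorisation `1 - O t + S t^2 (1 - t^2) = (1 - s^3 t) (1 - V) (1 - U t) (1 - W)`
with nonnegative `V`, `U`, `W`.
-/

set_option autoImplicit false

namespace Pool.Agent.BKG

open PowerSeries

/-- `f` is at least the monomial `s^N t^d` -/
def Has (f : PowerSeries (Polynomial ℤ)) (N d : ℕ) : Prop := NN (f - mono N d)

theorem Has.nn {f : PowerSeries (Polynomial ℤ)} {N d : ℕ} (h : Has f N d) : NN f :=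
  (NN.add h (NN.mono N d)).of_eq (by ring)

theorem Has.mul {f g : PowerSeries (Polynomial ℤ)} {a b c d : ℕ} (hf : Has f a b) (hg : Has g c d) :
    Has (f * g) (a + c) (b + d) := by
  refine ((NN.mul hf hg.nn).add ((NN.mono a b).mul hg)).of_eq ?_
  rw [← mono_mul]
  ring

theorem Has.add_right {f g : PowerSeries (Polynomial ℤ)} {a b : ℕ} (hf : Has f a b) (hg : NN g) :
    Has (f + g) a b := (NN.add hf hg).of_eq (by ring)

theorem Has.add_left {f g : PowerSeries (Polynomial ℤ)} {a b : ℕ} (hf : Has f a b) (hg : NN g) :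
    Has (g + f) a b := (NN.add hf hg).of_eq (by ring)

theorem Has.cast {f : PowerSeries (Polynomial ℤ)} {a b c d : ℕ} (hf : Has f a b) (h1 : a = c)
    (h2 : b = d) : Has f c d := by
  subst h1
  subst h2
  exact hf

theorem Has.mono (N d : ℕ) : Has (mono N d) N d := NN.zero.of_eq (sub_self _)

theorem Has.pos {f : PowerSeries (Polynomial ℤ)} {N d : ℕ} (h : Has f N d) : 1 ≤ cf f N d := by
  have h1 := h N d
  rw [cf_sub, cf_mono, if_pos ⟨rfl, rfl⟩] at h1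
  omega

theorem Has.K (n k j : ℕ) (hn : 1 ≤ n) : Has (K n k) (n * j) (k * j) := by
  intro N d
  rw [cf_sub, cf_mono]
  split_ifs with h
  · rw [cf_K, if_pos]
    · norm_num
    · rw [h.1, h.2, Nat.mul_div_cancel_left j (by omega)]
      exact ⟨dvd_mul_right n j, rfl⟩
  · have := NN.K n k N d
    omega

theorem xpow_eq (n : ℕ) : (X : PowerSeries (Polynomial ℤ)) ^ n = mono n 0 := by
  rw [BKG.mono, pow_zero, map_one, one_mul]

theorem t_eq (k : ℕ) : (C Polynomial.X : PowerSeries (Polynomial ℤ)) ^ k = mono 0 k := by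
  rw [BKG.mono, pow_zero, mul_one, map_pow]

theorem NN.xpow (n : ℕ) : NN (X ^ n) := by
  rw [xpow_eq]
  exact NN.mono n 0

theorem NN.t (n : ℕ) : NN (C Polynomial.X ^ n) := by
  rw [t_eq]
  exact NN.mono 0 n

theorem Has.xpow (n : ℕ) : Has (X ^ n) n 0 := by
  rw [xpow_eq]
  exact Has.mono n 0

theorem Has.t (n : ℕ) : Has (C Polynomial.X ^ n) 0 n := by
  rw [t_eq]
  exact Has.mono 0 n

theorem SI.xpow {Q : ℕ → ℕ → Prop} (n : ℕ) (h : Q n 0) : SI Q (X ^ n) := by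
  rw [xpow_eq]
  exact SI.mono h

theorem SI.t {Q : ℕ → ℕ → Prop} (n : ℕ) (h : Q 0 n) : SI Q (C Polynomial.X ^ n) := by
  rw [t_eq]
  exact SI.mono h

theorem SI.K (n k : ℕ) : SI (fun N d => ∃ j, N = n * j ∧ d = k * j) (K n k) := by
  intro N d h
  rw [cf_K] at h
  by_cases h1 : n ∣ N ∧ d = k * (N / n)
  · obtain ⟨h2, h3⟩ := h1
    exact ⟨N / n, (Nat.mul_div_cancel' h2).symm, h3⟩
  · rw [if_neg h1] at h
    exact absurd rfl h

theorem SI.imp {P Q : ℕ → ℕ → Prop} (h : ∀ a b, P a b → Q a b) {f : PowerSeries (Polynomial ℤ)}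
    (hf : SI P f) : SI Q f := fun N d hc => h _ _ (hf N d hc)

theorem K12 : (1 - X ^ 12) * K 12 0 = 1 := by
  rw [xpow_eq]
  exact K_mul 12 0 (by norm_num)

theorem K31 : (1 - C Polynomial.X ^ 1 * X ^ 3) * K 3 1 = 1 := by
  have h := K_mul 3 1 (by norm_num)
  rw [BKG.mono, map_pow] at h
  exact h

theorem one_sub_ne (m : ℕ) (hm : 1 ≤ m) : (1 - X ^ m : PowerSeries (Polynomial ℤ)) ≠ 0 := by
  intro h
  have h1 := K_mul m 0 hm
  rw [← xpow_eq, h, zero_mul] at h1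
  exact zero_ne_one h1

/-- `T` -/
noncomputable def T : PowerSeries (Polynomial ℤ) := (X ^ 3 + X ^ 5 + X ^ 9) * K 12 0

/-- `U` -/
noncomputable def U : PowerSeries (Polynomial ℤ) := (X ^ 7 + X ^ 11 + X ^ 13) * K 12 0

/-- `T U - S` -/
noncomputable def Y : PowerSeries (Polynomial ℤ) :=
  (X ^ 10 + X ^ 16 + X ^ 16) * (K 12 0 * K 12 0) + X ^ 14 * K 12 0

/-- `((T - s^3) t) / (1 - s^3 t)` -/
noncomputable def V : PowerSeries (Polynomial ℤ) :=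
  (X ^ 5 + X ^ 9 + X ^ 15) * K 12 0 * C Polynomial.X ^ 1 * K 3 1

theorem O_eq {O : PowerSeries (Polynomial ℤ)} (hO : (1 - X ^ 2) * O = X ^ 3) : O = T + U := by
  refine mul_left_cancel₀ (one_sub_ne 12 (by norm_num)) ?_
  rw [T, U]
  linear_combination (1 + X ^ 2 + X ^ 4 + X ^ 6 + X ^ 8 + X ^ 10) * hO -
    (X ^ 3 + X ^ 5 + X ^ 9 + X ^ 7 + X ^ 11 + X ^ 13) * K12

theorem TU_eq {S : PowerSeries (Polynomial ℤ)} (hS : (1 - X ^ 4) * (1 - X ^ 6) * S = X ^ 12) :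
    T * U - S = Y := by
  have h0 := one_sub_ne 12 (by norm_num)
  refine mul_left_cancel₀ (mul_ne_zero h0 h0) ?_
  have hK := K12
  rw [T, U, Y]
  linear_combination (-(1 + X ^ 4 + X ^ 8) * (1 + X ^ 6)) * hS +
    (((X ^ 3 + X ^ 5 + X ^ 9) * (X ^ 7 + X ^ 11 + X ^ 13) - (X ^ 10 + X ^ 16 + X ^ 16)) *
      ((1 - X ^ 12) * K 12 0 + 1) - X ^ 14 * (1 - X ^ 12)) * hK

theorem S_eq {S : PowerSeries (Polynomial ℤ)} (hS : (1 - X ^ 4) * (1 - X ^ 6) * S = X ^ 12) :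
    S = X ^ 12 * K 4 0 * K 6 0 := by
  have h4 := K_mul 4 0 (by norm_num)
  have h6 := K_mul 6 0 (by norm_num)
  rw [← xpow_eq] at h4 h6
  refine mul_left_cancel₀ (mul_ne_zero (one_sub_ne 4 (by norm_num)) (one_sub_ne 6 (by norm_num))) ?_
  linear_combination hS - X ^ 12 * (1 - X ^ 6) * K 6 0 * h4 - X ^ 12 * h6

theorem VT : (1 - mono 3 1) * (1 - V) = 1 - T * C Polynomial.X ^ 1 := by
  have h : mono 3 1 = C Polynomial.X ^ 1 * X ^ 3 := by
    rw [BKG.mono, map_pow]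
  rw [h, V, T]
  linear_combination (-((X ^ 5 + X ^ 9 + X ^ 15) * K 12 0 * C Polynomial.X ^ 1)) * K31 +
    (C Polynomial.X ^ 1 * X ^ 3) * K12

/-- the support of the exponents -/
def Q (N d : ℕ) : Prop := 1 ≤ d ∧ N % 2 = d % 2 ∧ (3 * d + 2 ≤ N ∨ (4 ≤ d ∧ 3 * d ≤ N))

/-- the support of `1 / (1 - T t)` -/
def Q0 (N d : ℕ) : Prop := N % 2 = d % 2 ∧ 3 * d ≤ N

theorem Q_add : ∀ a b c d, Q a b → Q c d → Q (a + c) (b + d) := by
  intro a b c d h1 h2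
  unfold Q at *
  omega

theorem Q0_add : ∀ a b c d, Q0 a b → Q0 c d → Q0 (a + c) (b + d) := by
  intro a b c d h1 h2
  unfold Q0 at *
  omega

theorem QQ0_add : ∀ a b c d, Q a b → Q0 c d → Q (a + c) (b + d) := by
  intro a b c d h1 h2
  unfold Q at *
  unfold Q0 at *
  omega

theorem SI.K12 : SI (fun N d => N % 2 = 0 ∧ d = 0) (BKG.K 12 0) :=
  SI.imp (fun a b h => by obtain ⟨j, h1, h2⟩ := h; omega) (SI.K 12 0)

theorem SI.odd (m : ℕ) {f : PowerSeries (Polynomial ℤ)}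
    (hf : SI (fun N d => N % 2 = 1 ∧ d = 0 ∧ m ≤ N) f) :
    SI (fun N d => N % 2 = 1 ∧ d = 1 ∧ m ≤ N) (f * BKG.K 12 0 * C Polynomial.X ^ 1) := by
  have h1 : SI (fun N d => N % 2 = 1 ∧ d = 0 ∧ m ≤ N) (f * BKG.K 12 0) :=
    SI.mul (fun a b c d h1 h2 => by omega) hf SI.K12
  exact SI.mul (Q := fun N d => N = 0 ∧ d = 1) (fun a b c d h1 h2 => by omega) h1
    (SI.t 1 ⟨rfl, rfl⟩)

theorem SI.T : SI Q0 (BKG.T * C Polynomial.X ^ 1) := by
  rw [BKG.T]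
  refine SI.imp (fun a b h => ?_) (SI.odd 3 ((SI.add (SI.add (SI.xpow 3 ?_) (SI.xpow 5 ?_))
    (SI.xpow 9 ?_))))
  · unfold Q0
    omega
  · omega
  · omega
  · omega

theorem SI.U : SI Q (BKG.U * C Polynomial.X ^ 1) := by
  rw [BKG.U]
  refine SI.imp (fun a b h => ?_) (SI.odd 7 ((SI.add (SI.add (SI.xpow 7 ?_) (SI.xpow 11 ?_))
    (SI.xpow 13 ?_))))
  · unfold Q
    omega
  · omega
  · omega
  · omega

theorem SI.V : SI Q BKG.V := by
  rw [BKG.V]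
  refine SI.mul (P := fun N d => N % 2 = 1 ∧ d = 1 ∧ 5 ≤ N) (fun a b c d h1 h2 => ?_)
    (SI.odd 5 ((SI.add (SI.add (SI.xpow 5 ?_) (SI.xpow 9 ?_)) (SI.xpow 15 ?_)))) (SI.K 3 1)
  · obtain ⟨j, h3, h4⟩ := h2
    unfold Q
    omega
  · omega
  · omega
  · omega

theorem SI.Y : SI Q (BKG.Y * C Polynomial.X ^ 2) := by
  have hk : SI (fun N d => N % 2 = 0 ∧ d = 0) (BKG.K 12 0 * BKG.K 12 0) :=
    SI.mul (fun a b c d h1 h2 => by omega) SI.K12 SI.K12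
  have h : SI (fun N d => N % 2 = 0 ∧ d = 0 ∧ 10 ≤ N) BKG.Y := by
    rw [BKG.Y]
    refine SI.add (SI.mul (P := fun N d => N % 2 = 0 ∧ d = 0 ∧ 10 ≤ N)
      (fun a b c d h1 h2 => ?_) (SI.add (SI.add (SI.xpow 10 ?_) (SI.xpow 16 ?_)) (SI.xpow 16 ?_)) hk)
      (SI.mul (P := fun N d => N % 2 = 0 ∧ d = 0 ∧ 10 ≤ N) (fun a b c d h1 h2 => ?_)
      (SI.xpow 14 ?_) SI.K12)
    all_goals omega
  refine SI.mul (Q := fun N d => N = 0 ∧ d = 2) (fun a b c d h1 h2 => ?_) h (SI.t 2 ⟨rfl, rfl⟩)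
  unfold Q
  omega

theorem SI.S {S : PowerSeries (Polynomial ℤ)} (hS : (1 - X ^ 4) * (1 - X ^ 6) * S = X ^ 12) :
    SI Q (S * C Polynomial.X ^ 4) := by
  rw [S_eq hS]
  have h4 : SI (fun N d => N % 2 = 0 ∧ d = 0) (BKG.K 4 0) :=
    SI.imp (fun a b h => by obtain ⟨j, h1, h2⟩ := h; omega) (SI.K 4 0)
  have h6 : SI (fun N d => N % 2 = 0 ∧ d = 0) (BKG.K 6 0) :=
    SI.imp (fun a b h => by obtain ⟨j, h1, h2⟩ := h; omega) (SI.K 6 0)
  have h : SI (fun N d => N % 2 = 0 ∧ d = 0 ∧ 12 ≤ N) (X ^ 12 * BKG.K 4 0) :=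
    SI.mul (P := fun N d => N % 2 = 0 ∧ d = 0 ∧ 12 ≤ N) (fun a b c d h1 h2 => by omega)
      (SI.xpow 12 (by omega)) h4
  have h' : SI (fun N d => N % 2 = 0 ∧ d = 0 ∧ 12 ≤ N) (X ^ 12 * BKG.K 4 0 * BKG.K 6 0) :=
    SI.mul (fun a b c d h1 h2 => by omega) h h6
  refine SI.mul (Q := fun N d => N = 0 ∧ d = 4) (fun a b c d h1 h2 => ?_) h' (SI.t 4 ⟨rfl, rfl⟩)
  unfold Q
  omega

theorem NN.S {S : PowerSeries (Polynomial ℤ)} (hS : (1 - X ^ 4) * (1 - X ^ 6) * S = X ^ 12) :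
    NN S := by
  rw [S_eq hS]
  exact ((NN.xpow 12).mul (NN.K 4 0)).mul (NN.K 6 0)

theorem NN.Y : NN BKG.Y := by
  rw [BKG.Y]
  exact ((((NN.xpow 10).add (NN.xpow 16)).add (NN.xpow 16)).mul ((NN.K 12 0).mul (NN.K 12 0))).add
    ((NN.xpow 14).mul (NN.K 12 0))

theorem NN.T : NN BKG.T := by
  rw [BKG.T]
  exact (((NN.xpow 3).add (NN.xpow 5)).add (NN.xpow 9)).mul (NN.K 12 0)

theorem NN.U : NN BKG.U := by
  rw [BKG.U]
  exact (((NN.xpow 7).add (NN.xpow 11)).add (NN.xpow 13)).mul (NN.K 12 0)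

theorem NN.V : NN BKG.V := by
  rw [BKG.V]
  exact ((((NN.xpow 5).add (NN.xpow 9)).add (NN.xpow 15)).mul (NN.K 12 0)).mul (NN.t 1) |>.mul
    (NN.K 3 1)

theorem Has.K12 (i : ℕ) : Has (BKG.K 12 0) (12 * i) 0 :=
  (Has.K 12 0 i (by norm_num)).cast rfl (by omega)

/-- the monomials of `V` -/
theorem Has.V (a i j : ℕ) (ha : a = 5 ∨ a = 9 ∨ a = 15) :
    Has BKG.V (a + 12 * i + 3 * j) (1 + j) := by
  have h0 : Has (X ^ 5 + X ^ 9 + X ^ 15) a 0 := by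
    rcases ha with rfl | rfl | rfl
    · exact ((Has.xpow 5).add_right (NN.xpow 9)).add_right (NN.xpow 15)
    · exact ((Has.xpow 9).add_left (NN.xpow 5)).add_right (NN.xpow 15)
    · exact (Has.xpow 15).add_left ((NN.xpow 5).add (NN.xpow 9))
  rw [BKG.V]
  exact (((h0.mul (Has.K12 i)).mul (Has.t 1)).mul (Has.K 3 1 j (by norm_num))).cast (by omega)
    (by omega)

theorem Has.U (a i : ℕ) (ha : a = 7 ∨ a = 11 ∨ a = 13) :
    Has (BKG.U * C Polynomial.X ^ 1) (a + 12 * i) 1 := by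
  have h0 : Has (X ^ 7 + X ^ 11 + X ^ 13) a 0 := by
    rcases ha with rfl | rfl | rfl
    · exact ((Has.xpow 7).add_right (NN.xpow 11)).add_right (NN.xpow 13)
    · exact ((Has.xpow 11).add_left (NN.xpow 7)).add_right (NN.xpow 13)
    · exact (Has.xpow 13).add_left ((NN.xpow 7).add (NN.xpow 11))
  rw [BKG.U]
  exact ((h0.mul (Has.K12 i)).mul (Has.t 1)).cast (by omega) (by omega)

theorem Has.Y (a i : ℕ) (ha : a = 10 ∨ a = 14 ∨ a = 16) : Has BKG.Y (a + 12 * i) 0 := by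
  have hk : Has (BKG.K 12 0 * BKG.K 12 0) (12 * i) 0 :=
    ((Has.K12 i).mul (Has.K12 0)).cast (by omega) (by omega)
  have n1 : NN ((X ^ 10 + X ^ 16 + X ^ 16) * (BKG.K 12 0 * BKG.K 12 0)) :=
    (((NN.xpow 10).add (NN.xpow 16)).add (NN.xpow 16)).mul ((NN.K 12 0).mul (NN.K 12 0))
  have n2 : NN (X ^ 14 * BKG.K 12 0) := (NN.xpow 14).mul (NN.K 12 0)
  rw [BKG.Y]
  rcases ha with rfl | rfl | rfl
  · exact (((((Has.xpow 10).add_right (NN.xpow 16)).add_right (NN.xpow 16)).mul hk).add_right n2).cast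
      (by omega) (by omega)
  · exact (((Has.xpow 14).mul (Has.K12 i)).add_left n1).cast (by omega) (by omega)
  · exact ((((Has.xpow 16).add_left ((NN.xpow 10).add (NN.xpow 16))).mul hk).add_right n2).cast
      (by omega) (by omega)

end Pool.Agent.BKG
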