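import Pool.Agent.BKG.Elim

/-!
MP_a6e4a6_nt. Infinite products of the factors `1 - s^N t^d`.
-/

set_option autoImplicit false

namespace Pool.Agent.BKG

open PowerSeries

/-- the product of `1 - s^N t^k` for `k` in a multiset -/
noncomputable def P (N : ℕ) (D : Multiset ℕ) : PowerSeries (Polynomial ℤ) :=
  (D.map fun k => 1 - mono N k).prod

theorem P_add (N : ℕ) (D D' : Multiset ℕ) : P N (D + D') = P N D * P N D' := by
  rw [P, P, P, Multiset.map_add, Multiset.prod_add]

/-- `F` is the infinite product of the `P N (D N)`, `N ≥ 1` -/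
def Fac (F : PowerSeries (Polynomial ℤ)) (D : ℕ → Multiset ℕ) : Prop :=
  ∀ n, X ^ (n + 1) ∣ F - ∏ N ∈ Finset.Icc 1 n, P N (D N)

theorem Fac.mul {F G : PowerSeries (Polynomial ℤ)} {D D' : ℕ → Multiset ℕ} (hF : Fac F D)
    (hG : Fac G D') : Fac (F * G) fun N => D N + D' N := by
  intro n
  have h : ∏ N ∈ Finset.Icc 1 n, P N (D N + D' N) =
      (∏ N ∈ Finset.Icc 1 n, P N (D N)) * ∏ N ∈ Finset.Icc 1 n, P N (D' N) := by
    rw [← Finset.prod_mul_distrib]
    exact Finset.prod_congr rfl fun N _ => P_add N _ _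
  rw [h]
  obtain ⟨a, ha⟩ := hF n
  obtain ⟨b, hb⟩ := hG n
  refine ⟨a * G + (∏ N ∈ Finset.Icc 1 n, P N (D N)) * b, ?_⟩
  linear_combination G * ha + (∏ N ∈ Finset.Icc 1 n, P N (D N)) * hb

/-- the factor `1 - s^n t^k` itself -/
theorem Fac.mono (m k : ℕ) (hm : 1 ≤ m) :
    Fac (1 - mono m k) fun N => if N = m then {k} else 0 := by
  intro n
  have h : ∀ n, ∏ N ∈ Finset.Icc 1 n, P N (if N = m then {k} else 0) =
      if m ≤ n then 1 - BKG.mono m k else 1 := by
    intro n
    induction n with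
    | zero =>
      rw [if_neg (by omega)]
      rfl
    | succ n ih =>
      rw [Finset.prod_Icc_succ_top (by omega), ih]
      by_cases h1 : n + 1 = m
      · subst h1
        rw [if_neg (by omega), if_pos rfl, if_pos (le_refl _), one_mul, P, Multiset.map_singleton,
          Multiset.prod_singleton]
      · rw [if_neg h1]
        have h2 : P (n + 1) 0 = 1 := by
          rw [P, Multiset.map_zero, Multiset.prod_zero]
        rw [h2, mul_one]
        by_cases h3 : m ≤ n
        · rw [if_pos h3, if_pos (by omega)]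
        · rw [if_neg h3, if_neg (by omega)]
  rw [h]
  by_cases h1 : m ≤ n
  · rw [if_pos h1, sub_self]
    exact dvd_zero _
  · rw [if_neg h1]
    have h2 : X ^ (n + 1) ∣ BKG.mono m k := by
      rw [BKG.mono]
      exact (pow_dvd_pow X (by omega)).mul_left _
    have h3 : (1 : PowerSeries (Polynomial ℤ)) - BKG.mono m k - 1 = -BKG.mono m k := by ring
    rw [h3]
    exact h2.neg_right

/-- elimination: `1 - V` is an infinite product -/
theorem exists_fac {Q : ℕ → ℕ → Prop} (hQ : ∀ a b c d, Q a b → Q c d → Q (a + c) (b + d))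
    {V : PowerSeries (Polynomial ℤ)} (hV : NN V) (hX : X ∣ V) (hS : SI Q V) :
    ∃ D : ℕ → Multiset ℕ, Fac (1 - V) D ∧ (∀ N d, 1 ≤ N → cf V N d ≤ ((D N).count d : ℤ)) ∧
      ∀ N d, d ∈ D N → Q N d := by
  have step : ∀ (n : ℕ) (W : {W : PowerSeries (Polynomial ℤ) // NN W ∧ X ^ (n + 1) ∣ W ∧ SI Q W ∧
      ∀ N d, n < N → cf V N d ≤ cf W N d}),
      ∃ p : Multiset ℕ × {W : PowerSeries (Polynomial ℤ) // NN W ∧ X ^ (n + 1 + 1) ∣ W ∧ SI Q W ∧
        ∀ N d, n + 1 < N → cf V N d ≤ cf W N d},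
        1 - W.1 = P (n + 1) p.1 * (1 - p.2.1) ∧ ∀ k, (p.1.count k : ℤ) = cf W.1 (n + 1) k := by
    rintro n ⟨W, w1, w2, w3, w4⟩
    have h1 : 0 ≤ (coeff (n + 1) W).eval 1 := by
      rw [Polynomial.eval_eq_sum, Polynomial.sum_def]
      refine Finset.sum_nonneg fun i _ => ?_
      rw [one_pow, mul_one]
      exact w1 (n + 1) i
    obtain ⟨D, W', b1, b2, b3, b4, b5, b6⟩ := weight hQ (by omega : 1 ≤ n + 1)
      ((coeff (n + 1) W).eval 1).toNat W w1 w2 w3 (Int.toNat_of_nonneg h1).symm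
    refine ⟨(D, ⟨W', b1, b2, b3, fun N d hN => (w4 N d (by omega)).trans (b6 N d hN)⟩), b4, b5⟩
  choose f hf1 hf2 using step
  have hX' : X ^ (0 + 1) ∣ V := by
    rw [zero_add, pow_one]
    exact hX
  let seq : (n : ℕ) → {W : PowerSeries (Polynomial ℤ) // NN W ∧ X ^ (n + 1) ∣ W ∧ SI Q W ∧
      ∀ N d, n < N → cf V N d ≤ cf W N d} :=
    fun n => Nat.rec ⟨V, hV, hX', hS, fun N d _ => le_refl _⟩ (fun n W => (f n W).2) n
  have hseq : ∀ n, seq (n + 1) = (f n (seq n)).2 := fun n => rfl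
  let D : ℕ → Multiset ℕ := fun n => match n with
    | 0 => 0
    | n + 1 => (f n (seq n)).1
  have hD : ∀ n, D (n + 1) = (f n (seq n)).1 := fun n => rfl
  have hcount : ∀ n k, ((D (n + 1)).count k : ℤ) = cf (seq n).1 (n + 1) k := by
    intro n k
    rw [hD]
    exact hf2 n (seq n) k
  have hprod : ∀ n, 1 - V = (∏ N ∈ Finset.Icc 1 n, P N (D N)) * (1 - (seq n).1) := by
    intro n
    induction n with
    | zero =>
      have e : ∏ N ∈ Finset.Icc 1 0, P N (D N) = 1 := rfl
      rw [e, one_mul]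
      rfl
    | succ n ih =>
      rw [Finset.prod_Icc_succ_top (by omega), mul_assoc, hD, hseq, ← hf1 n (seq n)]
      exact ih
  refine ⟨D, ?_, ?_, ?_⟩
  · intro n
    obtain ⟨a, ha⟩ := (seq n).2.2.1
    refine ⟨-((∏ N ∈ Finset.Icc 1 n, P N (D N)) * a), ?_⟩
    rw [hprod n]
    linear_combination (-(∏ N ∈ Finset.Icc 1 n, P N (D N))) * ha
  · intro N d hN
    obtain ⟨n, rfl⟩ : ∃ n, N = n + 1 := ⟨N - 1, by omega⟩
    rw [hcount]
    exact (seq n).2.2.2.2 (n + 1) d (by omega)
  · intro N d hd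
    match N with
    | 0 => exact absurd hd (Multiset.notMem_zero d)
    | n + 1 =>
      have h1 : 0 < (D (n + 1)).count d := Multiset.count_pos.2 hd
      have h2 := hcount n d
      exact (seq n).2.2.2.1 (n + 1) d (by omega)

/-- the inverse of `1 - V` -/
theorem exists_inv {Q : ℕ → ℕ → Prop} (hQ : ∀ a b c d, Q a b → Q c d → Q (a + c) (b + d))
    (hQ0 : Q 0 0) {V : PowerSeries (Polynomial ℤ)} (hV : NN V) (hX : X ∣ V) (hS : SI Q V) :
    ∃ G : PowerSeries (Polynomial ℤ), NN G ∧ SI Q G ∧ (1 - V) * G = 1 := by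
  have h0 : constantCoeff V = 0 := X_dvd_iff.1 hX
  obtain ⟨G, hG⟩ : ∃ G : PowerSeries (Polynomial ℤ), (1 - V) * G = 1 := by
    refine ⟨invOfUnit (1 - V) 1, mul_invOfUnit _ _ ?_⟩
    rw [map_sub, map_one, h0]
    simp
  have hG' : G = 1 + V * G := by linear_combination hG
  have hV0 : ∀ d, cf V 0 d = 0 := by
    intro d
    rw [cf, coeff_zero_eq_constantCoeff_apply, h0, Polynomial.coeff_zero]
  have hrec : ∀ N d, cf G N d = cf 1 N d + ∑ p ∈ Finset.HasAntidiagonal.antidiagonal N,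
      ∑ q ∈ Finset.HasAntidiagonal.antidiagonal d, cf V p.1 q.1 * cf G p.2 q.2 := by
    intro N d
    conv_lhs => rw [hG', cf_add, cf_mul]
  refine ⟨G, ?_, ?_, hG⟩
  · intro N
    induction N using Nat.strong_induction_on with
    | _ N ih =>
      intro d
      rw [hrec]
      refine add_nonneg (NN.one N d) (Finset.sum_nonneg fun p hp => Finset.sum_nonneg fun q _ => ?_)
      rw [Finset.HasAntidiagonal.mem_antidiagonal] at hp
      rcases Nat.eq_zero_or_pos p.1 with h1 | h1
      · rw [h1, hV0, zero_mul]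
      · exact mul_nonneg (hV _ _) (ih p.2 (by omega) q.2)
  · intro N
    induction N using Nat.strong_induction_on with
    | _ N ih =>
      intro d hd
      rw [hrec] at hd
      by_cases h1 : cf 1 N d = 0
      · rw [h1, zero_add] at hd
        obtain ⟨p, hp, h2⟩ := Finset.exists_ne_zero_of_sum_ne_zero hd
        obtain ⟨q, hq, h3⟩ := Finset.exists_ne_zero_of_sum_ne_zero h2
        rw [Finset.HasAntidiagonal.mem_antidiagonal] at hp hq
        have h4 : 0 < p.1 := by
          rcases Nat.eq_zero_or_pos p.1 with h5 | h5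
          · rw [h5, hV0, zero_mul] at h3
            exact absurd rfl h3
          · exact h5
        rw [← hp, ← hq]
        exact hQ _ _ _ _ (hS _ _ (left_ne_zero_of_mul h3))
          (ih p.2 (by omega) q.2 (right_ne_zero_of_mul h3))
      · have h2 : SI Q (1 : PowerSeries (Polynomial ℤ)) := by
          rw [← mono_zero]
          exact SI.mono hQ0
        exact h2 N d h1

end Pool.Agent.BKG
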