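import Mathlib

/-!
MP_a6e4a6_nt. The exponents in a product of factors `1 - s^N t^d` are unique.
-/

set_option autoImplicit false

namespace Pool.Agent.BKG

open PowerSeries

/-- `f = 1 - a s^n` up to higher powers of `s` -/
def Near (n : ℕ) (f : PowerSeries (Polynomial ℤ)) (a : Polynomial ℤ) : Prop :=
  X ^ (n + 1) ∣ f - (1 - C a * X ^ n)

theorem Near.mul {n : ℕ} (hn : 1 ≤ n) {f g : PowerSeries (Polynomial ℤ)} {a b : Polynomial ℤ}
    (hf : Near n f a) (hg : Near n g b) : Near n (f * g) (a + b) := by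
  obtain ⟨x, hx⟩ := hf
  obtain ⟨y, hy⟩ := hg
  have h : (X : PowerSeries (Polynomial ℤ)) ^ n * X ^ n = X ^ (n + 1) * X ^ (n - 1) := by
    rw [← pow_add, ← pow_add]
    congr 1
    omega
  refine ⟨x * g + (1 - C a * X ^ n) * y + C a * C b * X ^ (n - 1), ?_⟩
  rw [map_add]
  linear_combination g * hx + (1 - C a * X ^ n) * hy + C a * C b * h

theorem Near.one (n : ℕ) : Near n 1 0 := by
  refine ⟨0, ?_⟩
  rw [map_zero]
  ring

theorem Near.base (n : ℕ) (a : Polynomial ℤ) : Near n (1 - C a * X ^ n) a := by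
  refine ⟨0, ?_⟩
  ring

theorem Near.pow {n : ℕ} (hn : 1 ≤ n) {f : PowerSeries (Polynomial ℤ)} {a : Polynomial ℤ}
    (hf : Near n f a) (k : ℕ) : Near n (f ^ k) ((k : Polynomial ℤ) * a) := by
  induction k with
  | zero =>
    have e : ((0 : ℕ) : Polynomial ℤ) * a = 0 := by simp
    rw [e, pow_zero]
    exact Near.one n
  | succ k ih =>
    have e : ((k + 1 : ℕ) : Polynomial ℤ) * a = (k : Polynomial ℤ) * a + a := by
      push_cast
      ring
    rw [e, pow_succ]
    exact ih.mul hn hf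

theorem Near.prod {n : ℕ} (hn : 1 ≤ n) (e : ℕ → ℕ) (s : Finset ℕ) :
    Near n (∏ d ∈ s, (1 - C (Polynomial.X ^ d) * X ^ n) ^ e d)
      (∑ d ∈ s, (e d : Polynomial ℤ) * Polynomial.X ^ d) := by
  classical
  induction s using Finset.induction_on with
  | empty =>
    rw [Finset.prod_empty, Finset.sum_empty]
    exact Near.one n
  | insert a s ha ih =>
    rw [Finset.prod_insert ha, Finset.sum_insert ha]
    exact ((Near.base n _).pow hn (e a)).mul hn ih

theorem Near.unique {n : ℕ} {f g : PowerSeries (Polynomial ℤ)} {a b : Polynomial ℤ}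
    (hf : Near n f a) (hg : Near n g b) (h : X ^ (n + 1) ∣ f - g) : a = b := by
  have h1 : X ^ (n + 1) ∣ (C (b - a) : PowerSeries (Polynomial ℤ)) * X ^ n := by
    have h2 := dvd_sub (dvd_sub h hf) (dvd_neg.2 hg)
    refine h2.trans ⟨1, ?_⟩
    rw [map_sub]
    ring
  have h3 := X_pow_dvd_iff.1 h1 n (by omega)
  rw [coeff_C_mul, coeff_X_pow, if_pos rfl, mul_one] at h3
  linear_combination -h3

theorem coeff_sum (n : ℕ) (e : ℕ → ℕ) (d : ℕ) (hd : d ≤ n) :
    (∑ i ∈ Finset.range (n + 1), (e i : Polynomial ℤ) * Polynomial.X ^ i).coeff d = (e d : ℤ) := by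
  rw [Polynomial.finsetSum_coeff, Finset.sum_eq_single d]
  · have h : (e d : Polynomial ℤ) * Polynomial.X ^ d =
        Polynomial.C (e d : ℤ) * Polynomial.X ^ d := by simp
    rw [h, Polynomial.coeff_C_mul_X_pow, if_pos rfl]
  · intro i _ hi
    have h : (e i : Polynomial ℤ) * Polynomial.X ^ i =
        Polynomial.C (e i : ℤ) * Polynomial.X ^ i := by simp
    rw [h, Polynomial.coeff_C_mul_X_pow, if_neg (Ne.symm hi)]
  · intro h
    rw [Finset.mem_range] at h
    omega

/-- uniqueness of the exponents -/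
theorem unique {B : PowerSeries (Polynomial ℤ)} {e e' : ℕ → ℕ → ℕ}
    (h : ∀ n : ℕ, X ^ (n + 1) ∣ B - ∏ N ∈ Finset.Icc 1 n, ∏ d ∈ Finset.range (N + 1),
      (1 - C (Polynomial.X ^ d) * X ^ N) ^ e N d)
    (h' : ∀ n : ℕ, X ^ (n + 1) ∣ B - ∏ N ∈ Finset.Icc 1 n, ∏ d ∈ Finset.range (N + 1),
      (1 - C (Polynomial.X ^ d) * X ^ N) ^ e' N d) :
    ∀ N : ℕ, 1 ≤ N → ∀ d ≤ N, e N d = e' N d := by
  intro N
  induction N using Nat.strong_induction_on with
  | _ N ih =>
    intro hN
    obtain ⟨n, rfl⟩ : ∃ n, N = n + 1 := ⟨N - 1, by omega⟩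
    have h1 := dvd_sub (h' (n + 1)) (h (n + 1))
    rw [Finset.prod_Icc_succ_top (by omega), Finset.prod_Icc_succ_top (by omega)] at h1
    have h2 : ∏ N ∈ Finset.Icc 1 n, ∏ d ∈ Finset.range (N + 1),
        (1 - (C (Polynomial.X ^ d) : PowerSeries (Polynomial ℤ)) * X ^ N) ^ e' N d =
        ∏ N ∈ Finset.Icc 1 n, ∏ d ∈ Finset.range (N + 1),
        (1 - C (Polynomial.X ^ d) * X ^ N) ^ e N d := by
      refine Finset.prod_congr rfl fun N hN => Finset.prod_congr rfl fun d hd => ?_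
      rw [Finset.mem_Icc] at hN
      rw [Finset.mem_range] at hd
      rw [ih N (by omega) hN.1 d (by omega)]
    rw [h2] at h1
    have hu : IsUnit (∏ N ∈ Finset.Icc 1 n, ∏ d ∈ Finset.range (N + 1),
        (1 - (C (Polynomial.X ^ d) : PowerSeries (Polynomial ℤ)) * X ^ N) ^ e N d) := by
      rw [isUnit_iff_constantCoeff]
      have h3 : constantCoeff (∏ N ∈ Finset.Icc 1 n, ∏ d ∈ Finset.range (N + 1),
          (1 - (C (Polynomial.X ^ d) : PowerSeries (Polynomial ℤ)) * X ^ N) ^ e N d) = 1 := by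
        rw [map_prod]
        refine Finset.prod_eq_one fun N hN => ?_
        rw [map_prod]
        refine Finset.prod_eq_one fun d _ => ?_
        rw [Finset.mem_Icc] at hN
        have hx : constantCoeff ((C (Polynomial.X ^ d) : PowerSeries (Polynomial ℤ)) * X ^ N) = 0 := by
          rw [map_mul, map_pow constantCoeff (X : PowerSeries (Polynomial ℤ)) N, constantCoeff_X,
            zero_pow (by omega), mul_zero]
        rw [map_pow, map_sub, map_one, hx, sub_zero, one_pow]
      rw [h3]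
      exact isUnit_one
    have h4 : X ^ (n + 1 + 1) ∣ (∏ d ∈ Finset.range (n + 1 + 1),
        (1 - (C (Polynomial.X ^ d) : PowerSeries (Polynomial ℤ)) * X ^ (n + 1)) ^ e (n + 1) d) -
        ∏ d ∈ Finset.range (n + 1 + 1), (1 - C (Polynomial.X ^ d) * X ^ (n + 1)) ^ e' (n + 1) d := by
      rw [← hu.dvd_mul_left]
      refine h1.trans ⟨1, ?_⟩
      ring
    have h5 := Near.unique (Near.prod (by omega : 1 ≤ n + 1) (e (n + 1)) _)
      (Near.prod (by omega : 1 ≤ n + 1) (e' (n + 1)) _) h4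
    intro d hd
    have h6 := congrArg (fun p => Polynomial.coeff p d) h5
    simp only [coeff_sum (n + 1) _ d hd] at h6
    exact_mod_cast h6

end Pool.Agent.BKG
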